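import Pool.Agent.helper47.TFQ.Spec

/-! # Project tfq, module QPL: the places -/

set_option autoImplicit false

namespace Pool.Agent.TFQ

open Polynomial Pool.Agent.GJ Pool.Agent.TK
open Pool.Agent.FJ (VT Om chiO IsFrobO rf rs)
open Pool.Agent.TD (zK)

noncomputable section

theorem QPL_prim (O : ValuationSubring Om) (m : ℕ) [NeZero m] [NeZero (m : rf O)] {z : Om}
    (hz : IsPrimitiveRoot z m) : ∃ y : O, (y : Om) = z ∧ IsPrimitiveRoot (rs O y) m := by
  have hzO : z ∈ O := by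
    rcases O.mem_or_inv_mem z with h | h
    · exact h
    · have h1 : z ^ (m - 1) * z = 1 := by
        rw [← pow_succ, Nat.sub_add_cancel (Nat.one_le_iff_ne_zero.mpr (NeZero.ne m)),
          hz.pow_eq_one]
      have h2 : z⁻¹ ^ (m - 1) = z := by
        rw [inv_pow, eq_inv_of_mul_eq_one_left h1, inv_inv]
      rw [← h2]
      exact pow_mem h _
  refine ⟨⟨z, hzO⟩, rfl, ?_⟩
  have : NeZero ((m : ℕ) : Om) := ⟨by exact_mod_cast NeZero.ne m⟩
  have h1 : IsRoot (cyclotomic m Om) z := isRoot_cyclotomic_iff.mpr hz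
  have h2 : eval (⟨z, hzO⟩ : O) (cyclotomic m O) = 0 := by
    have h3 : O.subtype (eval (⟨z, hzO⟩ : O) (cyclotomic m O)) = 0 := by
      rw [← eval₂_at_apply, ← eval_map, map_cyclotomic]
      exact h1
    exact Subtype.ext h3
  refine isRoot_cyclotomic_iff.mp ?_
  rw [IsRoot.def, ← map_cyclotomic m (rs O), eval_map, eval₂_at_apply, h2, map_zero]

/-- the fixed points of the `Q`-th power are in the image of `F` -/
theorem QPL_range {F K : Type} [Field F] [Fintype F] [Field K] (e : F →+* K) (x : K)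
    (hx : x ^ cq F = x) : ∃ a : F, e a = x := by
  classical
  have hQ : 1 < cq F := Fintype.one_lt_card
  have hne : (X ^ cq F - X : K[X]) ≠ 0 := FiniteField.X_pow_card_sub_X_ne_zero K hQ
  have hdeg : (X ^ cq F - X : K[X]).natDegree = cq F :=
    FiniteField.X_pow_card_sub_X_natDegree_eq K hQ
  have hsub : (Finset.univ.image e) ⊆ (X ^ cq F - X : K[X]).roots.toFinset := by
    intro y hy
    rw [Finset.mem_image] at hy
    obtain ⟨a, -, rfl⟩ := hy
    rw [Multiset.mem_toFinset, mem_roots hne, IsRoot.def, eval_sub, eval_pow, eval_X, ← map_pow,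
      FiniteField.pow_card, sub_self]
  have hc : (X ^ cq F - X : K[X]).roots.toFinset.card ≤ (Finset.univ.image e).card := by
    rw [Finset.card_image_of_injective _ e.injective, Finset.card_univ]
    calc (X ^ cq F - X : K[X]).roots.toFinset.card
        ≤ Multiset.card (X ^ cq F - X : K[X]).roots := Multiset.toFinset_card_le _
      _ ≤ (X ^ cq F - X : K[X]).natDegree := card_roots' _
      _ = cq F := hdeg
  have heq := Finset.eq_of_subset_of_card_le hsub hc
  have hmem : x ∈ (X ^ cq F - X : K[X]).roots.toFinset := by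
    rw [Multiset.mem_toFinset, mem_roots hne, IsRoot.def, eval_sub, eval_pow, eval_X, hx, sub_self]
  rw [← heq, Finset.mem_image] at hmem
  obtain ⟨a, -, ha⟩ := hmem
  exact ⟨a, ha⟩

/-- the character -/
theorem QPL_char (O : ValuationSubring Om) {F : Type} [Field F] [Fintype F] [DecidableEq F]
    (e : F →+* rf O) (m α : ℕ) [NeZero m] [NeZero ((m : ℕ) : rf O)] (hmα : m * α = cq F - 1)
    (hα0 : 0 < α) {z : Om} (hz : IsPrimitiveRoot z m) :
    ∃ χ : MulChar F Om, orderOf χ = m ∧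
      ∀ x : F, x ≠ 0 → ∃ y : O, (y : Om) = χ x ∧ rs O y = e x ^ α := by
  have hm0 : m ≠ 0 := NeZero.ne m
  have hQ : 0 < cq F - 1 := by
    have := Fintype.one_lt_card (α := F)
    show 0 < Fintype.card F - 1
    omega
  obtain ⟨y0, hy0, hy0p⟩ := QPL_prim O m hz
  obtain ⟨g, hg⟩ := IsCyclic.exists_generator (α := Fˣ)
  have hcard : Fintype.card Fˣ = cq F - 1 := Fintype.card_units F
  have hord : orderOf g = cq F - 1 := by
    rw [orderOf_eq_card_of_forall_mem_zpowers hg, Nat.card_eq_fintype_card, hcard]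
  have hinj : Function.Injective e := e.injective
  have hg1 : IsPrimitiveRoot (e (g : F)) (cq F - 1) := by
    have h1 := IsPrimitiveRoot.orderOf g
    rw [hord] at h1
    exact (IsPrimitiveRoot.coe_units_iff.mpr h1).map_of_injective hinj
  have hη : IsPrimitiveRoot (e (g : F) ^ α) m :=
    hg1.pow (by omega) (by rw [← hmα, mul_comm])
  obtain ⟨j, -, hj⟩ := hy0p.eq_pow_of_pow_eq_one hη.pow_eq_one
  set ξ : Om := z ^ j with hξ
  have hξm : ξ ^ m = 1 := by
    rw [hξ, ← pow_mul, mul_comm, pow_mul, hz.pow_eq_one, one_pow]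
  set Ou : Omˣ := Units.ofPowEqOne ξ m hξm hm0 with hOu
  have hmem : Ou ∈ rootsOfUnity (Fintype.card Fˣ) Om := by
    rw [mem_rootsOfUnity, Units.ext_iff, Units.val_pow_eq_pow_val, Units.val_one]
    change ξ ^ _ = 1
    rw [hcard, ← hmα, pow_mul, hξm, one_pow]
  set χ : MulChar F Om := MulChar.ofRootOfUnity hmem hg with hχ
  have hχg : χ g = ξ := MulChar.ofRootOfUnity_spec hmem hg
  have hgen : ∀ a : F, a ≠ 0 → ∃ i : ℕ, a = (g : F) ^ i := by
    intro a ha
    have h1 := hg (Units.mk0 a ha)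
    rw [← mem_powers_iff_mem_zpowers] at h1
    obtain ⟨i, hi⟩ := h1
    refine ⟨i, ?_⟩
    have h2 := congrArg (fun u : Fˣ => (u : F)) hi
    simpa using h2.symm
  have hval : ∀ a : F, a ≠ 0 → ∃ y : O, (y : Om) = χ a ∧ rs O y = e a ^ α := by
    intro a ha
    obtain ⟨i, rfl⟩ := hgen a ha
    refine ⟨(y0 ^ j) ^ i, ?_, ?_⟩
    · rw [map_pow, hχg, hξ]
      push_cast
      rw [hy0]
    · rw [map_pow, map_pow, hj, map_pow, ← pow_mul, ← pow_mul, mul_comm]
  have hpr : IsPrimitiveRoot χ m := by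
    refine ⟨?_, ?_⟩
    · apply MulChar.ext
      intro a
      obtain ⟨i, hi⟩ := hgen (a : F) a.ne_zero
      rw [MulChar.pow_apply_coe, MulChar.one_apply_coe, hi, map_pow, hχg, ← pow_mul, mul_comm,
        pow_mul, hξm, one_pow]
    · intro l hl
      have h1 : ξ ^ l = 1 := by
        have h2 : (χ ^ l) (g : F) = (1 : MulChar F Om) (g : F) := by rw [hl]
        rw [MulChar.pow_apply_coe, MulChar.one_apply_coe, hχg] at h2
        exact h2
      have h3 : (y0 ^ j) ^ l = 1 := by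
        apply Subtype.ext
        push_cast
        rw [hy0]
        exact h1
      have h4 : (e (g : F) ^ α) ^ l = 1 := by
        rw [← hj, ← map_pow, ← map_pow, h3, map_one]
      exact hη.dvd_of_pow_eq_one _ h4
  exact ⟨χ, hpr.eq_orderOf.symm, hval⟩

theorem QPL_cast {R : Type} [CommRing R] {d D : ℕ} (h : d ∣ D) (hD : ((D : ℕ) : R) ≠ 0) :
    ((d : ℕ) : R) ≠ 0 := by
  intro h0
  obtain ⟨c, rfl⟩ := h
  exact hD (by rw [Nat.cast_mul, h0, zero_mul])

theorem QPL (hB1 : FJ.B1_stmt) (hC6 : FJ.C6_stmt) : QPL_stmt := by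
  classical
  intro l _ D hl2
  have hlp : l.Prime := Fact.out
  have : NeZero l := ⟨hlp.ne_zero⟩
  choose d1 hd1 hd2 using hC6.1
  set DD : ℕ := l * (∏ i, ∏ j, d1 (D.a i j)) *
    (∏ i, ∏ j, ∏ j', d1 ((D.a i j - D.a i j')⁻¹)) with hDD
  have hDD0 : 0 < DD := by
    refine Nat.mul_pos (Nat.mul_pos hlp.pos ?_) ?_
    · exact Finset.prod_pos fun i _ => Finset.prod_pos fun j _ => hd1 _
    · exact Finset.prod_pos fun i _ => Finset.prod_pos fun j _ =>
        Finset.prod_pos fun j' _ => hd1 _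
  have hv1 : l ∣ DD := (Dvd.intro _ rfl).mul_right _
  have hv3 : ∀ i j, d1 (D.a i j) ∣ DD := fun i j =>
    (((Finset.dvd_prod_of_mem (fun j => d1 (D.a i j)) (Finset.mem_univ j)).trans
      (Finset.dvd_prod_of_mem (fun i => ∏ j, d1 (D.a i j)) (Finset.mem_univ i))).mul_left
        _).mul_right _
  have hv4 : ∀ i j j', d1 ((D.a i j - D.a i j')⁻¹) ∣ DD := fun i j j' =>
    ((Finset.dvd_prod_of_mem (fun j' => d1 ((D.a i j - D.a i j')⁻¹)) (Finset.mem_univ j')).trans
      ((Finset.dvd_prod_of_mem (fun j => ∏ j', d1 ((D.a i j - D.a i j')⁻¹))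
        (Finset.mem_univ j)).trans
      (Finset.dvd_prod_of_mem (fun i => ∏ j, ∏ j', d1 ((D.a i j - D.a i j')⁻¹))
        (Finset.mem_univ i)))).mul_left _
  refine ⟨DD, hDD0, ?_⟩
  intro p M _ O _ σ hM hFrob hFix hzeta hne
  have hlO : ((l : ℕ) : rf O) ≠ 0 := QPL_cast hv1 hne
  have : NeZero ((l : ℕ) : rf O) := ⟨hlO⟩
  have : IsAlgClosed (rf O) := (hB1 Om O).1
  letI : Algebra (ZMod p) (rf O) := ZMod.algebra (rf O) p
  letI : Fintype (GaloisField p M) := Fintype.ofFinite _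
  have hQ : cq (GaloisField p M) = p ^ M := by
    show Fintype.card _ = _
    rw [← Nat.card_eq_fintype_card, GaloisField.card p M hM.ne']
  let e : GaloisField p M →+* rf O :=
    ((IsAlgClosed.lift : GaloisField p M →ₐ[ZMod p] rf O) : GaloisField p M →+* rf O)
  have hfixr : ∀ x : O, σ (x : Om) = x → ∃ a : GaloisField p M, e a = rs O x := by
    intro x hx
    obtain ⟨y, hy1, hy2⟩ := hFrob x
    have hyx : y = x := Subtype.ext (by rw [hy1, hx])
    refine QPL_range e _ ?_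
    rw [hQ, ← hy2, hyx]
  have : NeZero ((l : ℕ) : Om) := ⟨by exact_mod_cast hlp.ne_zero⟩
  obtain ⟨z, hz⟩ : ∃ z : Om, IsPrimitiveRoot z l := by
    obtain ⟨z, hz⟩ := IsAlgClosed.exists_root (cyclotomic l Om) (by
      rw [degree_cyclotomic]
      have := Nat.totient_pos.mpr hlp.pos
      exact_mod_cast this.ne')
    exact ⟨z, isRoot_cyclotomic_iff.mp hz⟩
  have hdvd : l ∣ cq (GaloisField p M) - 1 := by
    obtain ⟨y0, hy0, hy0p⟩ := QPL_prim O l hz
    obtain ⟨w, hw⟩ := hfixr y0 (by rw [hy0]; exact hzeta z hz.pow_eq_one)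
    have hwp : IsPrimitiveRoot w l := by
      rw [← hw] at hy0p
      exact hy0p.of_map_of_injective e.injective
    refine hwp.dvd_of_pow_eq_one _ ?_
    exact FiniteField.pow_card_sub_one_eq_one w (hwp.ne_zero hlp.ne_zero)
  obtain ⟨α, hα⟩ := hdvd
  have hα0 : 0 < α := by
    rcases Nat.eq_zero_or_pos α with h0 | h0
    · have h1 := Fintype.one_lt_card (α := GaloisField p M)
      rw [h0, mul_zero] at hα
      have h2 : Fintype.card (GaloisField p M) - 1 = 0 := hα
      omega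
    · exact h0
  obtain ⟨χ, hχ1, hχ2⟩ := QPL_char O e l α hα.symm hα0 hz
  have haO : ∀ i j, D.a i j ∈ O := fun i j => hd2 _ O (QPL_cast (hv3 i j) hne)
  have hiO : ∀ i j j', (D.a i j - D.a i j')⁻¹ ∈ O := fun i j j' =>
    hd2 _ O (QPL_cast (hv4 i j j') hne)
  choose A hA using fun i j => hfixr ⟨D.a i j, haO i j⟩ (hFix i j)
  refine ⟨GaloisField p M, inferInstance, inferInstance, inferInstance, α, e, χ, A, hQ, fun i => ?_⟩
  refine ⟨hl2, hα.symm, hα0, hχ1, hχ2, ?_, hFix i, hzeta, ?_, ?_⟩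
  · rw [hQ]
    exact hFrob
  · intro j
    exact ⟨⟨D.a i j, haO i j⟩, rfl, (hA i j).symm⟩
  · intro j j' hjj
    by_contra hne'
    have h9 : rs O ⟨D.a i j, haO i j⟩ = rs O ⟨D.a i j', haO i j'⟩ := by
      rw [← hA, ← hA, hjj]
    have h10 : ((⟨D.a i j, haO i j⟩ : O) - ⟨D.a i j', haO i j'⟩) * ⟨_, hiO i j j'⟩ = 1 := by
      apply Subtype.ext
      show (D.a i j - D.a i j') * (D.a i j - D.a i j')⁻¹ = 1
      exact mul_inv_cancel₀ (sub_ne_zero.2 fun h => hne' ((D.good i).inj h))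
    have h11 := congrArg (rs O) h10
    rw [map_mul, map_sub, h9, sub_self, zero_mul, map_one] at h11
    exact zero_ne_one h11

end

end Pool.Agent.TFQ
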